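import Pool.Agent.H752.GM.Stubs

/-!
# Infinitely many requirements
-/

namespace Pool.Agent.H752.GM

open Pool.Agent.NPC Pool.Agent.H620R2.Gauge Finset H568R2

open Classical in
/-- M2: infinitely many requirements -/
theorem t_stage : St_stage := by
  intro Bk Req b h1 h2 h3 h4
  choose ch hch1 hch2 using h4
  -- the stages
  let stg : Oracle → ℕ → Oracle := fun B n => Nat.rec B (fun j A => ch j A) n
  have stg0 : ∀ B, stg B 0 = B := fun B => rfl
  have stgS : ∀ B j, stg B (j + 1) = ch j (stg B j) := fun B j => rfl
  -- a string outside the blocks `i ≤ l < i + d` does not change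
  have hst : ∀ (B : Oracle) (y : List Bool) (i d : ℕ), (∀ l, i ≤ l → l < i + d → y ∉ Bk l) →
      stg B (i + d) y = stg B i y := by
    intro B y i d
    induction d with
    | zero => intro _; rfl
    | succ d ih =>
      intro h
      have e1 : stg B (i + (d + 1)) y = stg B (i + d) y := by
        have : stg B (i + (d + 1)) = ch (i + d) (stg B (i + d)) := stgS B (i + d)
        rw [this]
        exact hch1 _ _ y (h (i + d) (by omega) (by omega))
      rw [e1]
      exact ih (fun l hl hl' => h l hl (by omega))
  refine ⟨fun B y => if h : ∃ j, y ∈ Bk j then stg B (Nat.find h + 1) y else B y, fun B => ⟨?_, ?_⟩⟩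
  · intro y hy
    have : ¬ ∃ j, y ∈ Bk j := fun ⟨j, hj⟩ => hy j hj
    simp only [this, dif_neg, not_false_eq_true]
  · intro j
    refine h3 j (stg B (j + 1)) _ ?_ ?_
    · intro y hy
      by_cases h : ∃ j, y ∈ Bk j
      · have hi := Nat.find_spec h
        simp only [h, dif_pos]
        have hij : Nat.find h ≤ j := by
          by_contra hc
          have := h1 j (Nat.find h) (by omega) y hi
          omega
        have e := hst B y (Nat.find h + 1) (j - Nat.find h) (by
          intro l hl _ hyl
          exact Set.disjoint_left.1 (h2 (Nat.find h) l (by omega)) hi hyl)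
        have e2 : Nat.find h + 1 + (j - Nat.find h) = j + 1 := by omega
        rw [e2] at e
        exact e.symm
      · simp only [h, dif_neg, not_false_eq_true]
        have e := hst B y 0 (j + 1) (fun l _ _ hyl => h ⟨l, hyl⟩)
        rw [Nat.zero_add] at e
        exact e.symm
    · rw [stgS]
      exact hch2 _ _

end Pool.Agent.H752.GM
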