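import Pool.Agent.H752.GM.Stubs
import Pool.Agent.H620R2.Gauge.A2

/-!
# The test language is in the level `k + 1`
-/

namespace Pool.Agent.H752.GM

open Pool.Agent.NPC Pool.Agent.H620R2.Gauge Finset H568R2

namespace Tmem

/-- the questions -/
def Q (y : List Bool) : List (List Bool) :=
  (List.range (unpair y).1.length).map fun i =>
    pairBits (unpair y).2
      ((unpair y).1 ++ (List.replicate (min i (unpair y).1.length) ()).map fun _ => true)

/-- the output -/
def H (k : ℕ) (p : List Bool × List Bool) : List Bool :=
  if ((unpair p.1).1.length = (unpair p.1).2.length ^ (k + 1) ∧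
    p.2.all (fun b => b) = true) then [true] else []

/-- the algorithm -/
def V (k : ℕ) (A : Oracle) (y : List Bool) : List Bool := H k (y, (Q y).map A)

theorem poly_Q : Poly Q := by
  have hw : Poly (fun y => (unpair y).1) := Poly.fst poly_unpair
  have hx : Poly (fun y => (unpair y).2) := Poly.snd poly_unpair
  unfold Q
  refine NPC.Poly.map (F := fun y i => pairBits (unpair y).2
      ((unpair y).1 ++ (List.replicate (min i (unpair y).1.length) ()).map fun _ => true))
    (UPoly.length hw).range ?_
  have hm : UPoly (fun p : List Bool × ℕ => min p.2 (unpair p.1).1.length) :=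
    UPoly.of_le (Poly.min (Poly.snd Poly.id) (Poly.length (hw.comp (Poly.fst Poly.id))))
      (UPoly.length (hw.comp (Poly.fst Poly.id))) (fun a => min_le_right _ _)
  refine H622R2.poly_pairBits (hx.comp (Poly.fst Poly.id)) (Poly.append
    (hw.comp (Poly.fst Poly.id)) ?_)
  exact NPC.Poly.map (F := fun _ _ => true) hm (NPC.Poly.const true)

theorem poly_H (k : ℕ) : Poly (H k) := by
  unfold H
  refine Poly.ite (Poly.decide_and (Poly.decide_eq ?_ ?_)
    (Poly.decide_bool (Poly.all (p := fun _ b => b) (Poly.snd Poly.id)
    (Poly.snd Poly.id)))) (NPC.Poly.const _) (NPC.Poly.const _)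
  · exact Poly.length (Poly.fst (poly_unpair.comp (Poly.fst Poly.id)))
  · have h := (UPoly.length (Poly.snd (poly_unpair.comp (Poly.fst
      (Poly.id (α := List Bool × List Bool)))))).eval (Polynomial.X ^ (k + 1))
    simp only [Polynomial.eval_pow, Polynomial.eval_X] at h
    exact h.toPoly

theorem V_iff (k : ℕ) (A : Oracle) (w x : List Bool) :
    V k A (pairBits w x) = [true] ↔ w.length = x.length ^ (k + 1) ∧
      ∀ i < w.length, A (pairBits x (w ++ List.replicate i true)) = true := by
  unfold V H Q
  simp only [unpair_pairBits, List.map_map, List.all_map]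
  have hall : ((List.range w.length).all ((fun b => b) ∘ (A ∘ fun i =>
      pairBits x (w ++ List.map (fun _ => true) (List.replicate (min i w.length) ())))) = true) ↔
      ∀ i < w.length, A (pairBits x (w ++ List.replicate i true)) = true := by
    rw [List.all_eq_true]
    constructor
    · intro h i hi
      have := h i (List.mem_range.2 hi)
      simpa [min_eq_left hi.le] using this
    · intro h i hi
      have hi' := List.mem_range.1 hi
      have := h i hi'
      simpa [min_eq_left hi'.le] using this
  constructor
  · intro h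
    by_contra hc
    rw [if_neg (fun h' => hc ⟨h'.1, hall.1 h'.2⟩)] at h
    exact absurd h (by simp)
  · intro h
    rw [if_pos ⟨h.1, hall.2 h.2⟩]

end Tmem

/-- T3: the test language is in the level `k + 1`. -/
theorem t_tmem : St_tmem := by
  intro k A
  refine ⟨Tmem.V k A, IsFP.tt Tmem.poly_Q (Tmem.poly_H k), fun x => ?_⟩
  constructor
  · rintro ⟨w, hw, h⟩
    exact ⟨w, hw.le, (Tmem.V_iff k A w x).2 ⟨hw, h⟩⟩
  · rintro ⟨w, _, h⟩
    obtain ⟨h1, h2⟩ := (Tmem.V_iff k A w x).1 h
    exact ⟨w, h1, h2⟩

end Pool.Agent.H752.GM
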